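import Pool.Agent.Helper12_UNF.Stmts
import Pool.Agent.Helper44_Art.Fin1

/-!
# CLA: classical types
-/

set_option autoImplicit false

namespace Unf.H47

open Art Unf

/-- The label 4 relation from the label 3 relation. -/
theorem rel4 {G : Type} [Group G] (a b : G) (h : a * b * a = b * a * b) :
    alt 4 (a ^ 2) b = alt 4 b (a ^ 2) := by
  rw [show 4 = 2 * 2 from rfl, alt_two_mul, alt_two_mul, pow_two, pow_two, pow_two]
  calc a * a * b * (a * a * b) = a * (a * b * a) * (a * b) := by group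
    _ = a * (b * a * b) * (a * b) := by rw [h]
    _ = (a * b * a) * (b * a * b) := by group
    _ = (b * a * b) * (a * b * a) := by rw [h]
    _ = b * a * (b * a * b) * a := by group
    _ = b * a * (a * b * a) * a := by rw [h]
    _ = b * (a * a) * (b * (a * a)) := by group

theorem alt3 {G : Type} [Group G] (a b : G) : alt 3 a b = a * b * a := by
  rw [show 3 = 2 * 1 + 1 from rfl, alt_two_mul_add_one, pow_one]

/-- The homomorphism from type `B` to type `A`. -/
theorem exJ (n : ℕ) : ∃ j : Gp (CoxeterMatrix.B n) →* Gp (CoxeterMatrix.A n),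
    ∀ i : Fin n, j (gen _ i) = if i.1 + 1 = n then gen _ i ^ 2 else gen _ i := by
  have hA3 : ∀ s t : Fin n, s ≠ t → (t.1 + 1 = s.1 ∨ s.1 + 1 = t.1) →
      gen (CoxeterMatrix.A n) s * gen _ t * gen _ s =
        gen (CoxeterMatrix.A n) t * gen _ s * gen _ t := by
    intro s t hst h
    have h1 : (CoxeterMatrix.A n).M s t = 3 := by
      show (if s = t then 1 else (if (t : ℕ) + 1 = s ∨ (s : ℕ) + 1 = t then 3 else 2)) = 3
      rw [if_neg hst, if_pos h]
    have h2 := relHolds (CoxeterMatrix.A n) s t (by rw [h1]; norm_num)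
    rw [h1, alt3, alt3] at h2
    exact h2
  have hA2 : ∀ s t : Fin n, s ≠ t → ¬ (t.1 + 1 = s.1 ∨ s.1 + 1 = t.1) →
      Commute (gen (CoxeterMatrix.A n) s) (gen _ t) := by
    intro s t hst h
    have h1 : (CoxeterMatrix.A n).M s t = 2 := by
      show (if s = t then 1 else (if (t : ℕ) + 1 = s ∨ (s : ℕ) + 1 = t then 3 else 2)) = 2
      rw [if_neg hst, if_neg h]
    have h2 := relHolds (CoxeterMatrix.A n) s t (by rw [h1]; norm_num)
    rw [h1, alt_two, alt_two] at h2
    exact h2
  refine Art.lift (CoxeterMatrix.B n) _ fun s t _ => ?_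
  by_cases hst : s = t
  · rw [hst]
  have hB : (CoxeterMatrix.B n).M s t = if s = t then 1
      else (if (s : ℕ) = n - 1 ∧ (t : ℕ) = n - 2 ∨ (t : ℕ) = n - 1 ∧ (s : ℕ) = n - 2 then 4
        else (if (t : ℕ) + 1 = s ∨ (s : ℕ) + 1 = t then 3 else 2)) := rfl
  have hs := s.2
  have ht := t.2
  have hst' : (s : ℕ) ≠ t := fun h => hst (Fin.ext h)
  rw [if_neg hst] at hB
  by_cases h4 : (s : ℕ) = n - 1 ∧ (t : ℕ) = n - 2 ∨ (t : ℕ) = n - 1 ∧ (s : ℕ) = n - 2
  · rw [if_pos h4] at hB
    rw [hB]
    rcases h4 with ⟨h5, h6⟩ | ⟨h5, h6⟩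
    · rw [if_pos (by omega), if_neg (by omega)]
      exact rel4 _ _ (hA3 s t hst (by omega))
    · rw [if_neg (by omega), if_pos (by omega)]
      exact (rel4 _ _ (hA3 t s (Ne.symm hst) (by omega))).symm
  · rw [if_neg h4] at hB
    by_cases h3 : (t : ℕ) + 1 = s ∨ (s : ℕ) + 1 = t
    · rw [if_pos h3] at hB
      rw [hB, if_neg (by omega), if_neg (by omega), alt3, alt3]
      exact hA3 s t hst h3
    · rw [if_neg h3] at hB
      rw [hB, alt_two, alt_two]
      have hc := hA2 s t hst h3
      have : ∀ x y : Gp (CoxeterMatrix.A n), Commute x y → ∀ (p q : Prop) [Decidable p]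
          [Decidable q], Commute (if p then x ^ 2 else x) (if q then y ^ 2 else y) := by
        intro x y hxy p q _ _
        split_ifs
        · exact hxy.pow_pow 2 2
        · exact hxy.pow_left 2
        · exact hxy.pow_right 2
        · exact hxy
      exact this _ _ hc _ _

/-- Renumbering the generators. -/
theorem rfIso {S T : Type} (M : CoxeterMatrix S) (N : CoxeterMatrix T) (h : IsoTo M N)
    (hN : RF (Gp N)) : RF (Gp M) := by
  obtain ⟨e, he⟩ := h
  obtain ⟨Φ, hΦ⟩ := Art.lift M (fun s => gen N (e s)) (fun s t h0 => by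
    have := relHolds N (e s) (e t) (by rw [← he s t]; exact h0)
    rw [← he s t] at this
    exact this)
  obtain ⟨Ψ, hΨ⟩ := Art.lift N (fun s => gen M (e.symm s)) (fun s t h0 => by
    have h1 : N.M s t = M.M (e.symm s) (e.symm t) := by
      rw [he, Equiv.apply_symm_apply, Equiv.apply_symm_apply]
    have := relHolds M (e.symm s) (e.symm t) (by rw [← h1]; exact h0)
    rw [← h1] at this
    exact this)
  have h1 : Ψ.comp Φ = MonoidHom.id _ := by
    apply Art.ext
    intro s
    rw [MonoidHom.comp_apply, hΦ, hΨ, Equiv.symm_apply_apply, MonoidHom.id_apply]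
  have h2 : Function.Injective Φ := by
    intro x y hxy
    have := congrArg Ψ hxy
    rw [← MonoidHom.comp_apply, ← MonoidHom.comp_apply, h1] at this
    exact this
  rw [RF, Group.residuallyFinite_iff_forall_finiteIndexNormalSubgroup]
  intro g hg
  apply h2
  rw [map_one]
  exact Group.residuallyFinite_iff_forall_finiteIndexNormalSubgroup.1 hN (Φ g)
    fun H => hg (H.comap Φ)

theorem finIso {S T : Type} (M : CoxeterMatrix S) (N : CoxeterMatrix T) (h : IsoTo M N)
    (hN : Finite N.Group) : Finite M.Group := by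
  obtain ⟨e, he⟩ := h
  have h1 : M = N.reindex e.symm := by
    apply CoxeterMatrix.ext
    funext s t
    exact he s t
  rw [h1]
  exact Finite.of_equiv _ (N.reindexGroupEquiv e.symm).symm.toEquiv

theorem cla (hBRB : BrbStmt) (hBST : BstStmt) (hBRD : BrdStmt) (hFNA : FnaStmt) (hFNB : FnbStmt)
    (hFND : FndStmt) (hFNI : FniStmt) (hFNP : FnpStmt) (hRFP : RfpStmt) : ClaStmt := by
  have hA : ∀ n, RF (Gp (CoxeterMatrix.A n)) := by
    intro n
    induction n with
    | zero => exact Art.H48.base1 _ (inferInstance : Subsingleton (Fin 0))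
    | succ n ih =>
      obtain ⟨j, hj⟩ := exJ (n + 1)
      exact (hBST (n + 1) j hj).2.2 (hBRB n ih)
  have hB : ∀ n, RF (Gp (CoxeterMatrix.B n)) := by
    intro n
    rcases n with _ | n
    · exact Art.H48.base1 _ (inferInstance : Subsingleton (Fin 0))
    · exact hBRB n (hA n)
  have hD : ∀ n, RF (Gp (Dm n)) := fun n => hBRD n (hA n)
  have hI : ∀ m, RF (Gp (CoxeterMatrix.I m)) := by
    intro m
    refine Art.H44.dihP (CoxeterMatrix.I m) 0 1 (by decide) (fun x => ?_) ?_
    · rcases x with ⟨x, hx⟩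
      have : x = 0 ∨ x = 1 := by omega
      rcases this with rfl | rfl
      · exact Or.inl rfl
      · exact Or.inr rfl
    · show m + 2 ≠ 0
      omega
  intro S _ M hM
  obtain ⟨ι, hι, b, hb, hc⟩ := hM
  refine ⟨hFNP M ι b hb fun i => ?_, hRFP M ι b hb fun i => ?_⟩
  · rcases hc i with ⟨n, h⟩ | ⟨n, h⟩ | ⟨n, h⟩ | ⟨n, h⟩
    · exact finIso _ _ h (hFNA n)
    · exact finIso _ _ h (hFNB n)
    · exact finIso _ _ h (hFND n)
    · exact finIso _ _ h (hFNI n)
  · rcases hc i with ⟨n, h⟩ | ⟨n, h⟩ | ⟨n, h⟩ | ⟨n, h⟩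
    · exact rfIso _ _ h (hA n)
    · exact rfIso _ _ h (hB n)
    · exact rfIso _ _ h (hD n)
    · exact rfIso _ _ h (hI n)

end Unf.H47
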