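import Pool.Agent.Helper12_UNF.Stmts2

/-!
# GEO: detectors from the twist action
-/

set_option autoImplicit false

namespace Unf.H47

open Art Unf

/-- Intersections of closed sets are closed. -/
theorem closed_iInter {G : Type} [Group G] {ι : Type} (X : ι → Set G) (h : ∀ i, ClosedIn (X i)) :
    ClosedIn {z | ∀ i, z ∈ X i} := by
  intro z hz
  rw [Set.mem_ofPred_eq, not_forall] at hz
  obtain ⟨i, hi⟩ := hz
  obtain ⟨N, h1, h2, h3⟩ := h i z hi
  exact ⟨N, h1, h2, fun n hn hX => h3 n hn (hX i)⟩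

theorem closed_and {G : Type} [Group G] (X Y : Set G) (hX : ClosedIn X) (hY : ClosedIn Y) :
    ClosedIn {z | z ∈ X ∧ z ∈ Y} := by
  intro z hz
  rw [Set.mem_ofPred_eq, not_and_or] at hz
  rcases hz with hz | hz
  · obtain ⟨N, h1, h2, h3⟩ := hX z hz
    exact ⟨N, h1, h2, fun n hn h => h3 n hn h.1⟩
  · obtain ⟨N, h1, h2, h3⟩ := hY z hz
    exact ⟨N, h1, h2, fun n hn h => h3 n hn h.2⟩

section

variable {N : ℕ} {adj : Fin N → Fin N → Prop} {T : Fin N → MulAut (FreeGroup (Xg N))}

/-- A twist fixes the edges of its own curve. -/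
theorem fix_own (hT : Tw adj T) (hirr : ∀ i, ¬ adj i i) (i : Fin N) (j : Fin (N + 1)) :
    T i (eg i j) = eg i j :=
  hT.e_fix i i j (fun h => hirr i h.1) (fun h => hirr i h.1)

theorem fix_cyc (hT : Tw adj T) (hirr : ∀ i, ¬ adj i i) (i : Fin N) (r : ℕ) :
    T i (cyc i r) = cyc i r := by
  unfold cyc
  rw [map_list_prod, List.map_map]
  congr 1
  apply List.map_congr_left
  intro j _
  exact fix_own hT hirr i j

/-- The set of generators that belong to the curves in `Y`. -/
def GS (Y : Set (Fin N)) : Set (Xg N) :=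
  {x : Xg N | ∃ i, i ∈ Y ∧ (x = Sum.inr i ∨ ∃ j, x = Sum.inl (i, j))}

theorem eg_mem {Y : Set (Fin N)} {i : Fin N} (hi : i ∈ Y) (j : Fin (N + 1)) :
    eg i j ∈ Subgroup.closure (FreeGroup.of '' GS Y) :=
  Subgroup.subset_closure ⟨Sum.inl (i, j), ⟨i, hi, Or.inr ⟨j, rfl⟩⟩, rfl⟩

theorem hg_mem {Y : Set (Fin N)} {i : Fin N} (hi : i ∈ Y) :
    hg i ∈ Subgroup.closure (FreeGroup.of '' GS Y) :=
  Subgroup.subset_closure ⟨Sum.inr i, ⟨i, hi, Or.inl rfl⟩, rfl⟩

theorem cyc_mem {Y : Set (Fin N)} {i : Fin N} (hi : i ∈ Y) (r : ℕ) :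
    cyc i r ∈ Subgroup.closure (FreeGroup.of '' GS Y) := by
  unfold cyc
  apply Subgroup.list_prod_mem
  intro x hx
  rw [List.mem_map] at hx
  obtain ⟨j, _, rfl⟩ := hx
  exact eg_mem hi j

/-- A twist of a curve of `Y` maps the subgroup of `Y` into itself. -/
theorem map_le (hT : Tw adj T) (Y : Set (Fin N)) (i : Fin N) (hi : i ∈ Y) :
    ∀ f ∈ Subgroup.closure (FreeGroup.of '' GS Y),
      T i f ∈ Subgroup.closure (FreeGroup.of '' GS Y) := by
  intro f hf
  have h1 : Subgroup.closure (FreeGroup.of '' GS Y) ≤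
      (Subgroup.closure (FreeGroup.of '' GS Y)).comap (T i).toMonoidHom := by
    rw [Subgroup.closure_le]
    rintro _ ⟨x, ⟨t, ht, hx⟩, rfl⟩
    show T i (FreeGroup.of x) ∈ Subgroup.closure (FreeGroup.of '' GS Y)
    rcases hx with rfl | ⟨j, rfl⟩
    · by_cases hti : t = i
      · subst hti
        have := hT.hh t
        unfold hg at this
        rw [this]
        exact mul_mem (cyc_mem hi 0) (hg_mem hi)
      · have := hT.h_fix i t hti
        unfold hg at this
        rw [this]
        exact hg_mem ht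
    · have ho := hT.out i t
      have hn := hT.inn i t
      have hf := hT.e_fix i t j
      by_cases h1 : adj i t ∧ i < t ∧ j = i.succ
      · obtain ⟨h2, h3, rfl⟩ := h1
        have := ho h2 h3
        unfold eg at this
        rw [this]
        exact mul_mem (cyc_mem hi _) (eg_mem ht _)
      · by_cases h2 : adj i t ∧ t < i ∧ j = i.castSucc
        · obtain ⟨h3, h4, rfl⟩ := h2
          have := hn h3 h4
          unfold eg at this
          rw [this]
          exact mul_mem (eg_mem ht _) (inv_mem (cyc_mem hi _))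
        · have := hf h1 h2
          unfold eg at this
          rw [this]
          exact eg_mem ht _
  exact h1 hf

/-- The same for the inverse twist. -/
theorem map_ge (hT : Tw adj T) (hirr : ∀ i, ¬ adj i i) (Y : Set (Fin N)) (i : Fin N)
    (hi : i ∈ Y) : ∀ f ∈ Subgroup.closure (FreeGroup.of '' GS Y),
      (T i)⁻¹ f ∈ Subgroup.closure (FreeGroup.of '' GS Y) := by
  intro f hf
  have hinv : ∀ f g : FreeGroup (Xg N), T i g = f → (T i)⁻¹ f = g := by
    intro f g h
    rw [← h]
    exact MulAut.inv_apply_self _ (T i) g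
  have h1 : Subgroup.closure (FreeGroup.of '' GS Y) ≤
      (Subgroup.closure (FreeGroup.of '' GS Y)).comap ((T i)⁻¹ : MulAut _).toMonoidHom := by
    rw [Subgroup.closure_le]
    rintro _ ⟨x, ⟨t, ht, hx⟩, rfl⟩
    show (T i)⁻¹ (FreeGroup.of x) ∈ Subgroup.closure (FreeGroup.of '' GS Y)
    rcases hx with rfl | ⟨j, rfl⟩
    · by_cases hti : t = i
      · subst hti
        have h2 := hT.hh t
        have h3 : (T t)⁻¹ (hg t) = (cyc t 0)⁻¹ * hg t := by
          apply hinv
          rw [map_mul, map_inv, fix_cyc hT hirr, h2, inv_mul_cancel_left]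
        unfold hg at h3
        rw [h3]
        exact mul_mem (inv_mem (cyc_mem hi 0)) (hg_mem hi)
      · have h3 := hinv _ _ (hT.h_fix i t hti)
        unfold hg at h3
        rw [h3]
        exact hg_mem ht
    · have ho := hT.out i t
      have hn := hT.inn i t
      have hf := hT.e_fix i t j
      by_cases h1 : adj i t ∧ i < t ∧ j = i.succ
      · obtain ⟨h2, h3, rfl⟩ := h1
        have h4 := ho h2 h3
        have h5 : (T i)⁻¹ (eg t i.succ) = (cyc i (t.1 + 1))⁻¹ * eg t i.succ := by
          apply hinv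
          rw [map_mul, map_inv, fix_cyc hT hirr, h4, inv_mul_cancel_left]
        unfold eg at h5
        rw [h5]
        exact mul_mem (inv_mem (cyc_mem hi _)) (eg_mem ht _)
      · by_cases h2 : adj i t ∧ t < i ∧ j = i.castSucc
        · obtain ⟨h3, h4, rfl⟩ := h2
          have h5 := hn h3 h4
          have h6 : (T i)⁻¹ (eg t i.castSucc) = eg t i.castSucc * cyc i (t.1 + 1) := by
            apply hinv
            rw [map_mul, fix_cyc hT hirr, h5, inv_mul_cancel_right]
          unfold eg at h6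
          rw [h6]
          exact mul_mem (eg_mem ht _) (cyc_mem hi _)
        · have h3 := hinv _ _ (hf h1 h2)
          unfold eg at h3
          rw [h3]
          exact eg_mem ht _
  exact h1 hf

end

/-- The stabilizer of a family of elements and of a subgroup. -/
def Stb {G F U : Type} [Group G] [Group F] (θ : G →* MulAut F) (h : U → F) (A : Subgroup F) :
    Subgroup G where
  carrier := {a | (∀ u, θ a (h u) = h u) ∧ (∀ f ∈ A, θ a f ∈ A) ∧ ∀ f ∈ A, (θ a)⁻¹ f ∈ A}
  one_mem' := by
    refine ⟨fun u => ?_, fun f hf => ?_, fun f hf => ?_⟩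
    · rw [map_one]; rfl
    · rw [map_one]; exact hf
    · rw [map_one, inv_one]; exact hf
  mul_mem' := by
    rintro a b ⟨h1, h2, h3⟩ ⟨h4, h5, h6⟩
    refine ⟨fun u => ?_, fun f hf => ?_, fun f hf => ?_⟩
    · rw [map_mul, MulAut.mul_apply, h4, h1]
    · rw [map_mul, MulAut.mul_apply]
      exact h2 _ (h5 _ hf)
    · rw [map_mul, mul_inv_rev, MulAut.mul_apply]
      exact h6 _ (h3 _ hf)
  inv_mem' := by
    rintro a ⟨h1, h2, h3⟩
    refine ⟨fun u => ?_, fun f hf => ?_, fun f hf => ?_⟩
    · rw [map_inv]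
      have := congrArg ((θ a)⁻¹ : MulAut F) (h1 u)
      rw [MulAut.inv_apply_self] at this
      exact this.symm
    · rw [map_inv]
      exact h3 _ hf
    · rw [map_inv, inv_inv]
      exact h2 _ hf

theorem mem_Stb {G F U : Type} [Group G] [Group F] (θ : G →* MulAut F) (h : U → F)
    (A : Subgroup F) (a : G) : a ∈ Stb θ h A ↔
      (∀ u, θ a (h u) = h u) ∧ (∀ f ∈ A, θ a f ∈ A) ∧ ∀ f ∈ A, (θ a)⁻¹ f ∈ A := Iff.rfl

/-- It is enough to check the generators of the subgroup. -/
theorem mem_Stb' {G X U : Type} [Group G] (θ : G →* MulAut (FreeGroup X)) (h : U → FreeGroup X)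
    (Y : Set X) (a : G) : a ∈ Stb θ h (Subgroup.closure (FreeGroup.of '' Y)) ↔
      (∀ u, θ a (h u) = h u) ∧
      (∀ y : Y, θ a (FreeGroup.of y.1) ∈ Subgroup.closure (FreeGroup.of '' Y)) ∧
      ∀ y : Y, (θ a)⁻¹ (FreeGroup.of y.1) ∈ Subgroup.closure (FreeGroup.of '' Y) := by
  rw [mem_Stb]
  have key : ∀ φ : MulAut (FreeGroup X),
      (∀ f ∈ Subgroup.closure (FreeGroup.of '' Y), φ f ∈ Subgroup.closure (FreeGroup.of '' Y)) ↔
      ∀ y : Y, φ (FreeGroup.of y.1) ∈ Subgroup.closure (FreeGroup.of '' Y) := by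
    intro φ
    constructor
    · intro h1 y
      exact h1 _ (Subgroup.subset_closure ⟨y.1, y.2, rfl⟩)
    · intro h1 f hf
      have h2 : Subgroup.closure (FreeGroup.of '' Y) ≤
          (Subgroup.closure (FreeGroup.of '' Y)).comap φ.toMonoidHom := by
        rw [Subgroup.closure_le]
        rintro _ ⟨y, hy, rfl⟩
        exact h1 ⟨y, hy⟩
      exact h2 hf
  rw [key (θ a), key (θ a)⁻¹]

theorem geo (hCLG : ClgStmt) : GeoStmt := by
  intro S _ M C K N e T θ hT hθ hU2 hU3
  have hirr : ∀ i, ¬ Adj M K (e.symm i) (e.symm i) := fun i h => h.1 rfl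
  -- the curves of `s` do not meet the subgroup of the other curves
  have hFS : ∀ s : S, FS e s = Subgroup.closure (FreeGroup.of ''
      GS {i : Fin N | (e.symm i).1 ≠ s}) := fun s => rfl
  have hmemFS : ∀ s t : S, s ≠ t → ∀ u, hg (e (t, u)) ∈ FS e s := by
    intro s t hst u
    rw [hFS]
    apply hg_mem
    show (e.symm (e (t, u))).1 ≠ s
    rw [Equiv.symm_apply_apply]
    exact hst.symm
  have hgen : ∀ s t : S, s ≠ t →
      gen M t ∈ Stb θ (fun u : Fin K => hg (e (s, u))) (FS e s) := by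
    intro s t hst
    -- the products of twists of curves of `t`
    have hcurve : ∀ u, e (t, u) ∈ {i : Fin N | (e.symm i).1 ≠ s} := by
      intro u
      show (e.symm (e (t, u))).1 ≠ s
      rw [Equiv.symm_apply_apply]
      exact hst.symm
    have h1 : ∀ l : List (Fin K),
        (∀ u, (l.map (fun u => T (e (t, u)))).prod (hg (e (s, u))) = hg (e (s, u))) ∧
        (∀ f ∈ FS e s, (l.map (fun u => T (e (t, u)))).prod f ∈ FS e s) ∧
        ∀ f ∈ FS e s, ((l.map (fun u => T (e (t, u)))).prod)⁻¹ f ∈ FS e s := by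
      intro l
      induction l with
      | nil =>
        refine ⟨fun u => ?_, fun f hf => ?_, fun f hf => ?_⟩
        · rw [List.map_nil, List.prod_nil]; rfl
        · rw [List.map_nil, List.prod_nil]; exact hf
        · rw [List.map_nil, List.prod_nil, inv_one]; exact hf
      | cons v l ih =>
        obtain ⟨h1, h2, h3⟩ := ih
        refine ⟨fun u => ?_, fun f hf => ?_, fun f hf => ?_⟩
        · rw [List.map_cons, List.prod_cons, MulAut.mul_apply, h1]
          refine hT.h_fix _ _ fun h => ?_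
          have := e.injective h
          exact hst (congrArg Prod.fst this)
        · rw [List.map_cons, List.prod_cons, MulAut.mul_apply]
          exact map_le hT _ _ (hcurve v) _ (h2 f hf)
        · rw [List.map_cons, List.prod_cons, mul_inv_rev, MulAut.mul_apply]
          exact h3 _ (map_ge hT hirr _ _ (hcurve v) _ hf)
    have h2 := h1 (List.finRange K)
    rw [mem_Stb, hθ t, List.ofFn_eq_map]
    exact h2
  refine ⟨fun s => Stb θ (fun u : Fin K => hg (e (s, u))) (FS e s),
    fun s t => {a | ∀ u : Fin K, θ a (hg (e (t, u))) ∈ FS e s ∧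
      (θ a)⁻¹ (hg (e (s, u))) ∈ FS e t}, ?_, ?_, ?_, ?_, ?_, ?_⟩
  · intro s t hst _
    refine ⟨hgen s t hst, fun u => ⟨?_, ?_⟩⟩
    · rw [map_one]
      exact hmemFS s t hst u
    · rw [map_one, inv_one]
      exact hmemFS t s hst.symm u
  · intro s t x hx
    refine ⟨fun u => ⟨?_, ?_⟩, fun a ha b hb u => ⟨?_, ?_⟩⟩
    · rw [map_inv]
      exact (hx u).2
    · rw [map_inv, inv_inv]
      exact (hx u).1
    · obtain ⟨h1, h2, h3⟩ := ha
      obtain ⟨h4, h5, h6⟩ := hb
      rw [map_mul, map_mul, MulAut.mul_apply, MulAut.mul_apply]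
      have := h4 u
      dsimp only at this
      rw [this]
      exact h2 _ (hx u).1
    · have ha' := inv_mem ha
      have hb' := inv_mem hb
      obtain ⟨h1, h2, h3⟩ := ha'
      obtain ⟨h4, h5, h6⟩ := hb'
      rw [map_mul, map_mul, mul_inv_rev, mul_inv_rev, MulAut.mul_apply, MulAut.mul_apply]
      have := h1 u
      dsimp only at this
      rw [map_inv] at this
      rw [this]
      rw [map_inv] at h5
      exact h5 _ (hx u).2
  · intro s
    have h1 : ((Stb θ (fun u : Fin K => hg (e (s, u))) (FS e s) : Subgroup (Gp M)) :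
        Set (Gp M)) = {a | a ∈ {a | ∀ u : Fin K, a ∈ {g | θ g (hg (e (s, u))) = hg (e (s, u))}} ∧
          a ∈ {a | a ∈ {a | ∀ y : GS {i : Fin N | (e.symm i).1 ≠ s},
            a ∈ {g | θ g (FreeGroup.of y.1) ∈ Subgroup.closure (FreeGroup.of ''
              GS {i : Fin N | (e.symm i).1 ≠ s})}} ∧
          a ∈ {a | ∀ y : GS {i : Fin N | (e.symm i).1 ≠ s},
            a ∈ {g | (θ g)⁻¹ (FreeGroup.of y.1) ∈ Subgroup.closure (FreeGroup.of ''
              GS {i : Fin N | (e.symm i).1 ≠ s})}}}} := by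
      ext a
      exact mem_Stb' θ (fun u : Fin K => hg (e (s, u))) (GS {i : Fin N | (e.symm i).1 ≠ s}) a
    show ClosedIn ((Stb θ (fun u : Fin K => hg (e (s, u))) (FS e s) : Subgroup (Gp M)) :
        Set (Gp M))
    rw [h1]
    exact closed_and _ _ (closed_iInter _ fun u => (hCLG θ ∅ _).1)
      (closed_and _ _ (closed_iInter _ fun y => (hCLG θ _ _).2.1)
        (closed_iInter _ fun y => (hCLG θ _ _).2.2))
  · intro s t _ _
    have h1 : {a | ∀ u : Fin K, θ a (hg (e (t, u))) ∈ FS e s ∧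
        (θ a)⁻¹ (hg (e (s, u))) ∈ FS e t} = {a | ∀ u : Fin K, a ∈ {a |
          a ∈ {g | θ g (hg (e (t, u))) ∈ Subgroup.closure (FreeGroup.of ''
              GS {i : Fin N | (e.symm i).1 ≠ s})} ∧
          a ∈ {g | (θ g)⁻¹ (hg (e (s, u))) ∈ Subgroup.closure (FreeGroup.of ''
              GS {i : Fin N | (e.symm i).1 ≠ t})}}} := rfl
    dsimp only
    rw [h1]
    exact closed_iInter _ fun u => closed_and _ _ (hCLG θ _ _).2.1 (hCLG θ _ _).2.2
  · intro s hs a ha haS
    exact hU2 s hs a ha haS.1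
  · intro s hs t ht hst a ha haD
    exact hU3 s hs t ht hst a ha (fun u => (haD u).1) (fun u => (haD u).2)

end Unf.H47
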